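import Mathlib

/-!
# Component tilings of the plane: definitions (MP_2d2d9d_co)
-/

open Set

namespace Pool.Agent.Lib.MP_2d2d9d_co

/-- The Euclidean plane. -/
abbrev Plane : Type := EuclideanSpace ℝ (Fin 2)

/-- A tiling of the plane: a countable family of closed sets (the tiles) whose union is the plane
and whose interiors are pairwise disjoint. -/
structure IsTiling (𝒯 : Set (Set Plane)) : Prop where
  countable : 𝒯.Countable
  closed : ∀ A ∈ 𝒯, IsClosed A
  cover : ⋃₀ 𝒯 = univ
  disjoint : ∀ A ∈ 𝒯, ∀ B ∈ 𝒯, A ≠ B → Disjoint (interior A) (interior B)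

/-- The symmetries of a family `𝒯`: the isometries of the plane mapping `𝒯` onto itself. -/
def symmetries (𝒯 : Set (Set Plane)) : Set (Plane ≃ᵢ Plane) :=
  {g | (fun A => g '' A) '' 𝒯 = 𝒯}

/-- The induced tile group `S(𝒯 | T)`: the symmetries of `𝒯` mapping `T` onto itself. -/
def tileGroup (𝒯 : Set (Set Plane)) (T : Set Plane) : Set (Plane ≃ᵢ Plane) :=
  {g | g ∈ symmetries 𝒯 ∧ g '' T = T}

/-- `𝒯` is isohedral if its symmetries act transitively on the tiles. -/
def IsIsohedral (𝒯 : Set (Set Plane)) : Prop :=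
  ∀ A ∈ 𝒯, ∀ B ∈ 𝒯, ∃ g ∈ symmetries 𝒯, g '' A = B

/-- A closed topological disk: a subset of the plane homeomorphic to the closed unit disk. -/
def IsClosedDisk (C : Set Plane) : Prop :=
  Nonempty (C ≃ₜ Metric.closedBall (0 : Plane) 1)

/-- `𝒞` is a decomposition of `T` into exactly `k` components: `T` is the union of the `k` members
of `𝒞`, which are pairwise disjoint closed topological disks. -/
structure IsComponents (𝒞 : Set (Set Plane)) (T : Set Plane) (k : ℕ) : Prop where
  finite : 𝒞.Finite
  card : 𝒞.ncard = k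
  disk : ∀ C ∈ 𝒞, IsClosedDisk C
  disjoint : ∀ C ∈ 𝒞, ∀ D ∈ 𝒞, C ≠ D → Disjoint C D
  union : ⋃₀ 𝒞 = T

/-- The equivalence class of the component `C` of the tile `T` (with components `𝒞`): all the
components onto which `C` is mapped by elements of the induced tile group `S(𝒯 | T)`. -/
def componentClass (𝒯 𝒞 : Set (Set Plane)) (T C : Set Plane) : Set (Set Plane) :=
  {D | D ∈ 𝒞 ∧ ∃ g ∈ tileGroup 𝒯 T, g '' C = D}

/-- A `t`-class `k`-component tiling: an isohedral tiling in which each tile is the union of `k`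
pairwise disjoint closed topological disks, which form exactly `t` equivalence classes under the
induced tile group. -/
structure IsClassComponentTiling (t k : ℕ) (𝒯 : Set (Set Plane)) : Prop where
  tiling : IsTiling 𝒯
  isohedral : IsIsohedral 𝒯
  components : ∀ T ∈ 𝒯, ∃ 𝒞 : Set (Set Plane), IsComponents 𝒞 T k ∧
    {K | ∃ C ∈ 𝒞, K = componentClass 𝒯 𝒞 T C}.ncard = t

end Pool.Agent.Lib.MP_2d2d9d_co
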