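import Mathlib
import Pool.Agent.Lib.MP_2d2d9d_co.Defs

/-!
# Construction of `t`-class `12 t`-component tilings (MP_2d2d9d_co)

The wallpaper group `p6m` is written in triangular coordinates (three real coordinates with sum
`0`). Its fundamental triangle is cut into `t` triangles of pairwise different diameters, the `j`-th
one is translated to the `j`-th cell of a row of cells inside an open chamber of the point group
`D₆`, and the prototile is the union of the `12 t` images under `D₆`.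
-/

open Set

namespace Pool.Agent.Lib.MP_2d2d9d_co

/-! ## Triangular coordinates -/

/-- Triangular coordinates of a point (they sum to `0`). -/
noncomputable def tc (p : Plane) (i : Fin 3) : ℝ :=
  ![(p 0 / √3 + p 1) / 2, (p 0 / √3 - p 1) / 2, - (p 0 / √3)] i

/-- The point with given triangular coordinates. -/
noncomputable def ofT (x : Fin 3 → ℝ) : Plane := !₂[- (√3 * x 2), x 0 - x 1]

lemma sqrt3_pos : (0 : ℝ) < √3 := by positivity
lemma sqrt3_sq : (√3 : ℝ) ^ 2 = 3 := Real.sq_sqrt (by norm_num)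

lemma tc0 (p : Plane) : tc p 0 = (p 0 / √3 + p 1) / 2 := rfl
lemma tc1 (p : Plane) : tc p 1 = (p 0 / √3 - p 1) / 2 := rfl
lemma tc2 (p : Plane) : tc p 2 = - (p 0 / √3) := rfl

lemma tc_sum (p : Plane) : tc p 0 + tc p 1 + tc p 2 = 0 := by
  rw [tc0, tc1, tc2]; ring

lemma tc_ofT (x : Fin 3 → ℝ) (hx : x 0 + x 1 + x 2 = 0) (i : Fin 3) : tc (ofT x) i = x i := by
  have h3 := sqrt3_pos.ne'
  fin_cases i
  · change tc (ofT x) 0 = x 0
    rw [tc0]; simp [ofT]; field_simp; linarith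
  · change tc (ofT x) 1 = x 1
    rw [tc1]; simp [ofT]; field_simp; linarith
  · change tc (ofT x) 2 = x 2
    rw [tc2]; simp [ofT]; field_simp

lemma ofT_tc (p : Plane) : ofT (tc p) = p := by
  have h3 := sqrt3_pos.ne'
  ext i
  fin_cases i
  · simp [ofT, tc]; field_simp
  · simp [ofT, tc]; ring

lemma tc_inj {p q : Plane} (h : ∀ i, tc p i = tc q i) : p = q := by
  rw [← ofT_tc p, ← ofT_tc q, funext h]

lemma dist_sq (p q : Plane) : dist p q ^ 2 = 2 * ∑ i, (tc p i - tc q i) ^ 2 := by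
  rw [EuclideanSpace.dist_sq_eq, Fin.sum_univ_two, Fin.sum_univ_three, tc0, tc1, tc2, tc0, tc1, tc2,
    Real.dist_eq, Real.dist_eq, sq_abs, sq_abs]
  have h3 := sqrt3_sq
  have h3' := sqrt3_pos.ne'
  field_simp
  ring_nf
  rw [h3]
  ring

/-! ## The symmetry group of the triangular lattice -/

/-- An element of the wallpaper group `p6m` in triangular coordinates:
`x ↦ ε • x ∘ σ + l`. -/
structure Elt where
  σ : Equiv.Perm (Fin 3)
  ε : ℤˣ
  l : Fin 3 → ℤ
  hl : ∑ i, l i = 0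

instance : Countable Elt := by
  have : Function.Injective (fun e : Elt => (e.σ, e.ε, e.l)) := by
    rintro ⟨a, b, c, d⟩ ⟨a', b', c', d'⟩ h
    simp only [Prod.mk.injEq] at h
    obtain ⟨rfl, rfl, rfl⟩ := h
    rfl
  exact this.countable

/-- real sign of a unit of `ℤ` -/
noncomputable def sg (ε : ℤˣ) : ℝ := ((ε : ℤ) : ℝ)

lemma sg_one : sg 1 = 1 := by simp [sg]
lemma sg_mul (a b : ℤˣ) : sg (a * b) = sg a * sg b := by simp [sg]
lemma sg_sq (a : ℤˣ) : sg a * sg a = 1 := by
  rw [← sg_mul]; rcases Int.units_eq_one_or a with h | h <;> simp [h, sg]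
lemma sg_cases (a : ℤˣ) : (a = 1 ∧ sg a = 1) ∨ (a = -1 ∧ sg a = -1) := by
  rcases Int.units_eq_one_or a with h | h <;> simp [h, sg]

/-- action in coordinates -/
noncomputable def Elt.f (e : Elt) (p : Plane) : Plane :=
  ofT (fun i => sg e.ε * tc p (e.σ i) + e.l i)

lemma tc_sum_perm (p : Plane) (σ : Equiv.Perm (Fin 3)) : ∑ i, tc p (σ i) = 0 := by
  rw [Equiv.sum_comp σ (fun i => tc p i), Fin.sum_univ_three]; exact tc_sum p

lemma Elt.sum_l (e : Elt) : ((e.l 0 : ℤ) : ℝ) + e.l 1 + e.l 2 = 0 := by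
  have := e.hl
  rw [Fin.sum_univ_three] at this
  exact_mod_cast this

lemma Elt.tc_f (e : Elt) (p : Plane) (i : Fin 3) :
    tc (e.f p) i = sg e.ε * tc p (e.σ i) + e.l i := by
  apply tc_ofT (fun i => sg e.ε * tc p (e.σ i) + e.l i)
  have h1 := tc_sum_perm p e.σ
  rw [Fin.sum_univ_three] at h1
  have h2 := e.sum_l
  have : sg e.ε * (tc p (e.σ 0) + tc p (e.σ 1) + tc p (e.σ 2)) = 0 := by rw [h1]; ring
  linarith

lemma Elt.isometry_f (e : Elt) : Isometry e.f := by
  apply Isometry.of_dist_eq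
  intro p q
  have h : dist (e.f p) (e.f q) ^ 2 = dist p q ^ 2 := by
    rw [dist_sq, dist_sq]
    congr 1
    have : ∀ i, (tc (e.f p) i - tc (e.f q) i) ^ 2 = (tc p (e.σ i) - tc q (e.σ i)) ^ 2 := by
      intro i
      rw [e.tc_f, e.tc_f]
      have := sg_sq e.ε
      calc (sg e.ε * tc p (e.σ i) + (e.l i) - (sg e.ε * tc q (e.σ i) + (e.l i))) ^ 2
          = (sg e.ε * sg e.ε) * (tc p (e.σ i) - tc q (e.σ i)) ^ 2 := by ring
        _ = _ := by rw [this, one_mul]
    rw [Finset.sum_congr rfl (fun i _ => this i)]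
    exact Equiv.sum_comp e.σ (fun i => (tc p i - tc q i) ^ 2)
  have h1 : (0 : ℝ) ≤ dist (e.f p) (e.f q) := dist_nonneg
  have h2 : (0 : ℝ) ≤ dist p q := dist_nonneg
  nlinarith [sq_nonneg (dist (e.f p) (e.f q) - dist p q)]

/-- product -/
def Elt.mul (a b : Elt) : Elt where
  σ := b.σ * a.σ
  ε := a.ε * b.ε
  l := fun i => a.ε * b.l (a.σ i) + a.l i
  hl := by
    rw [Finset.sum_add_distrib, ← Finset.mul_sum, Equiv.sum_comp a.σ b.l, a.hl, b.hl]; simp

/-- inverse -/
def Elt.inv (a : Elt) : Elt where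
  σ := a.σ⁻¹
  ε := a.ε
  l := fun i => - (a.ε * a.l (a.σ⁻¹ i))
  hl := by
    rw [Finset.sum_neg_distrib, ← Finset.mul_sum, Equiv.sum_comp a.σ⁻¹ a.l, a.hl]; simp

lemma Elt.mul_f (a b : Elt) (p : Plane) : (a.mul b).f p = a.f (b.f p) := by
  apply tc_inj
  intro i
  rw [Elt.tc_f, Elt.tc_f, Elt.tc_f]
  simp only [Elt.mul, Equiv.Perm.mul_apply, sg]
  push_cast
  ring

lemma Elt.inv_f (a : Elt) (p : Plane) : a.inv.f (a.f p) = p := by
  apply tc_inj
  intro i
  rw [Elt.tc_f, Elt.tc_f]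
  have := sg_sq a.ε
  simp only [Elt.inv, Equiv.Perm.coe_inv, Equiv.apply_symm_apply]
  push_cast
  simp only [sg] at *
  linear_combination (tc p i) * this

lemma Elt.f_inv (a : Elt) (p : Plane) : a.f (a.inv.f p) = p := by
  apply tc_inj
  intro i
  rw [Elt.tc_f, Elt.tc_f]
  have := sg_sq a.ε
  simp only [Elt.inv, Equiv.Perm.coe_inv, Equiv.symm_apply_apply]
  push_cast
  simp only [sg] at *
  linear_combination (tc p i - a.l i) * this

/-- The isometry of the plane given by a group element. -/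
noncomputable def Elt.act (a : Elt) : Plane ≃ᵢ Plane :=
  IsometryEquiv.mk' a.f a.inv.f a.f_inv a.isometry_f

@[simp] lemma Elt.act_apply (a : Elt) (p : Plane) : a.act p = a.f p := rfl

lemma Elt.image_mul (a b : Elt) (A : Set Plane) : (a.mul b).act '' A = a.act '' (b.act '' A) := by
  rw [image_image]
  exact image_congr (fun p _ => Elt.mul_f a b p)

lemma Elt.image_inv (a : Elt) (A : Set Plane) : a.inv.act '' (a.act '' A) = A := by
  rw [image_image]
  conv_rhs => rw [← image_id A]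
  exact image_congr (fun p _ => Elt.inv_f a p)

lemma Elt.image_inv' (a : Elt) (A : Set Plane) : a.act '' (a.inv.act '' A) = A := by
  rw [image_image]
  conv_rhs => rw [← image_id A]
  exact image_congr (fun p _ => Elt.f_inv a p)

/-! ## The pieces of the fundamental triangle -/

/-- The `j`-th piece of the fundamental triangle `x₀ ≥ x₁ ≥ 0`, `x₀ - x₂ ≤ 1`. -/
def piece (t : ℕ) (j : Fin t) : Set Plane :=
  {p | (j : ℝ) * tc p 0 ≤ t * tc p 1 ∧ (t : ℝ) * tc p 1 ≤ (j + 1) * tc p 0 ∧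
    2 * tc p 0 + tc p 1 ≤ 1}

lemma piece_nonneg {t : ℕ} {j : Fin t} {p : Plane} (hp : p ∈ piece t j) :
    0 ≤ tc p 1 ∧ tc p 1 ≤ tc p 0 := by
  obtain ⟨h1, h2, h3⟩ := hp
  have ht : (0 : ℝ) < t := by exact_mod_cast (Nat.zero_lt_of_lt j.2)
  have hj : (j : ℝ) + 1 ≤ t := by exact_mod_cast j.2
  have hj0 : (0 : ℝ) ≤ (j : ℝ) := by positivity
  have h0 : 0 ≤ tc p 0 := by nlinarith
  constructor
  · have : 0 ≤ (t : ℝ) * tc p 1 := le_trans (by positivity) h1
    exact nonneg_of_mul_nonneg_right this ht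
  · nlinarith

lemma chamber_unique {y z : Fin 3 → ℝ} (hy : y 0 + y 1 + y 2 = 0) (hz : z 0 + z 1 + z 2 = 0)
    (hy1 : 0 < y 1) (hy0 : y 1 < y 0) (hz1 : 0 < z 1) (hz0 : z 1 < z 0)
    (σ : Equiv.Perm (Fin 3)) (ε : ℤˣ) (h : ∀ i, z i = sg ε * y (σ i)) : σ = 1 ∧ ε = 1 := by
  have h0 := h 0
  have h1 := h 1
  have h2 := h 2
  have key : σ 0 = 0 ∧ σ 1 = 1 ∧ σ 2 = 2 ∧ ε = 1 := by
    generalize σ 0 = a at *
    generalize σ 1 = b at *
    generalize σ 2 = c at *
    rcases sg_cases ε with ⟨he, hs⟩ | ⟨he, hs⟩ <;> rw [hs] at h0 h1 h2 <;>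
    fin_cases a <;> fin_cases b <;> fin_cases c <;>
    simp only [Fin.zero_eta, Fin.mk_one, Fin.reduceFinMk, he, and_self] at * <;>
    (exfalso; linarith)
  refine ⟨?_, key.2.2.2⟩
  ext i
  fin_cases i
  · simp [key.1]
  · simp [key.2.1]
  · simp [key.2.2.1]

lemma tc_add (p q : Plane) (i : Fin 3) : tc (p + q) i = tc p i + tc q i := by
  fin_cases i <;> simp [tc] <;> ring

lemma tc_smul (r : ℝ) (p : Plane) (i : Fin 3) : tc (r • p) i = r * tc p i := by
  fin_cases i <;> simp [tc] <;> ring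

lemma continuous_tc (i : Fin 3) : Continuous (fun p : Plane => tc p i) := by
  fin_cases i <;> simp only [tc] <;> simp <;> fun_prop

lemma exists_pos_mem {K : Set Plane} {p : Plane} (hp : p ∈ interior K) (v : Plane) :
    ∃ r : ℝ, 0 < r ∧ p + r • v ∈ K := by
  have hc : Continuous (fun r : ℝ => p + r • v) := by fun_prop
  have h0 : (fun r : ℝ => p + r • v) ⁻¹' (interior K) ∈ nhds (0 : ℝ) := by
    apply (hc.isOpen_preimage _ isOpen_interior).mem_nhds
    simpa using hp
  obtain ⟨ε, hε, h⟩ := Metric.mem_nhds_iff.1 h0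
  refine ⟨ε / 2, by positivity, interior_subset (h ?_)⟩
  rw [Metric.mem_ball, Real.dist_eq, sub_zero, abs_of_pos (by positivity)]
  linarith

/-- strict version of the inequalities defining a piece -/
def openPiece (t : ℕ) (j : Fin t) : Set Plane :=
  {p | (j : ℝ) * tc p 0 < t * tc p 1 ∧ (t : ℝ) * tc p 1 < (j + 1) * tc p 0 ∧
    2 * tc p 0 + tc p 1 < 1}

lemma isOpen_openPiece (t : ℕ) (j : Fin t) : IsOpen (openPiece t j) := by
  have c0 := continuous_tc 0
  have c1 := continuous_tc 1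
  have e : openPiece t j = {p | (j : ℝ) * tc p 0 < t * tc p 1} ∩
      ({p | (t : ℝ) * tc p 1 < (j + 1) * tc p 0} ∩ {p | 2 * tc p 0 + tc p 1 < 1}) := rfl
  rw [e]
  refine (isOpen_lt ?_ ?_).inter ((isOpen_lt ?_ ?_).inter (isOpen_lt ?_ ?_)) <;> fun_prop

lemma isClosed_piece (t : ℕ) (j : Fin t) : IsClosed (piece t j) := by
  have c0 := continuous_tc 0
  have c1 := continuous_tc 1
  have e : piece t j = {p | (j : ℝ) * tc p 0 ≤ t * tc p 1} ∩
      ({p | (t : ℝ) * tc p 1 ≤ (j + 1) * tc p 0} ∩ {p | 2 * tc p 0 + tc p 1 ≤ 1}) := rfl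
  rw [e]
  refine (isClosed_le ?_ ?_).inter ((isClosed_le ?_ ?_).inter (isClosed_le ?_ ?_)) <;> fun_prop

lemma openPiece_subset (t : ℕ) (j : Fin t) : openPiece t j ⊆ piece t j :=
  fun _ h => ⟨h.1.le, h.2.1.le, h.2.2.le⟩

lemma interior_piece (t : ℕ) (j : Fin t) : interior (piece t j) = openPiece t j := by
  apply Subset.antisymm
  · intro p hp
    have ht : (0 : ℝ) < t := by exact_mod_cast (Nat.zero_lt_of_lt j.2)
    have hj0 : (0 : ℝ) ≤ (j : ℝ) := by positivity
    refine ⟨?_, ?_, ?_⟩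
    · obtain ⟨r, hr, hm⟩ := exists_pos_mem hp (ofT ![0, -1, 1])
      have := hm.1
      rw [tc_add, tc_smul, tc_add, tc_smul, tc_ofT _ (by simp), tc_ofT _ (by simp)] at this
      simp at this
      nlinarith [mul_pos ht hr]
    · obtain ⟨r, hr, hm⟩ := exists_pos_mem hp (ofT ![0, 1, -1])
      have := hm.2.1
      rw [tc_add, tc_smul, tc_add, tc_smul, tc_ofT _ (by simp), tc_ofT _ (by simp)] at this
      simp at this
      nlinarith [mul_pos ht hr]
    · obtain ⟨r, hr, hm⟩ := exists_pos_mem hp (ofT ![0, 1, -1])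
      have := hm.2.2
      rw [tc_add, tc_smul, tc_add, tc_smul, tc_ofT _ (by simp), tc_ofT _ (by simp)] at this
      simp at this
      linarith
  · exact interior_maximal (openPiece_subset t j) (isOpen_openPiece t j)

lemma openPiece_strict {t : ℕ} {j : Fin t} {p : Plane} (hp : p ∈ openPiece t j) :
    0 < tc p 1 ∧ tc p 1 < tc p 0 ∧ 2 * tc p 0 + tc p 1 < 1 := by
  obtain ⟨h1, h2, h3⟩ := hp
  have ht : (0 : ℝ) < t := by exact_mod_cast (Nat.zero_lt_of_lt j.2)
  have hj : (j : ℝ) + 1 ≤ t := by exact_mod_cast j.2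
  have hj0 : (0 : ℝ) ≤ (j : ℝ) := by positivity
  have h0 : 0 < tc p 0 := by nlinarith
  refine ⟨?_, ?_, h3⟩
  · have : 0 < (t : ℝ) * tc p 1 := lt_of_le_of_lt (by positivity) h1
    exact (mul_pos_iff_of_pos_left ht).1 this
  · nlinarith

/-- the cells have disjoint interiors -/
lemma cell_unique {t : ℕ} {i j : Fin t} {a : Elt} {p : Plane} (hp : p ∈ openPiece t i)
    (hq : a.f p ∈ openPiece t j) : (∀ x, a.f x = x) ∧ i = j := by
  obtain ⟨p1, p2, p3⟩ := openPiece_strict hp
  obtain ⟨q1, q2, q3⟩ := openPiece_strict hq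
  have ps := tc_sum p
  have qs := tc_sum (a.f p)
  -- all differences of coordinates have absolute value `< 1`
  have hpd : ∀ k l : Fin 3, |tc p k - tc p l| < 1 := by
    intro k l
    fin_cases k <;> fin_cases l <;> simp only [Fin.zero_eta, Fin.mk_one, Fin.reduceFinMk] <;>
      rw [abs_lt] <;> constructor <;> linarith
  have hqd : ∀ k l : Fin 3, |tc (a.f p) k - tc (a.f p) l| < 1 := by
    intro k l
    fin_cases k <;> fin_cases l <;> simp only [Fin.zero_eta, Fin.mk_one, Fin.reduceFinMk] <;>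
      rw [abs_lt] <;> constructor <;> linarith
  have hl : ∀ k l : Fin 3, |a.l k - a.l l| ≤ 1 := by
    intro k l
    have h1 := hqd k l
    rw [a.tc_f, a.tc_f] at h1
    have h2 := hpd (a.σ k) (a.σ l)
    have h3 : |((a.l k - a.l l : ℤ) : ℝ)| < 2 := by
      push_cast
      rcases sg_cases a.ε with ⟨_, hs⟩ | ⟨_, hs⟩ <;> rw [hs] at h1 <;> rw [abs_lt] at * <;>
        constructor <;> linarith [h1.1, h1.2, h2.1, h2.2]
    have h4 : |a.l k - a.l l| < 2 := by exact_mod_cast h3
    linarith [Int.lt_iff_add_one_le.1 h4]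
  have hsum := a.hl
  rw [Fin.sum_univ_three] at hsum
  have hl0 : ∀ k, a.l k = 0 := by
    have h01 := abs_le.1 (hl 0 1)
    have h02 := abs_le.1 (hl 0 2)
    have h12 := abs_le.1 (hl 1 2)
    intro k
    fin_cases k <;> simp only [Fin.zero_eta, Fin.mk_one, Fin.reduceFinMk] <;> omega
  have hch := chamber_unique (y := tc p) (z := tc (a.f p)) ps qs p1 p2 q1 q2 a.σ a.ε (by
    intro k
    rw [a.tc_f, hl0 k]; simp)
  have hid : ∀ x, a.f x = x := by
    intro x
    apply tc_inj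
    intro k
    rw [a.tc_f, hl0 k, hch.1, hch.2, sg_one]
    simp
  refine ⟨hid, ?_⟩
  rw [hid p] at hq
  have ht : (0 : ℝ) < t := by exact_mod_cast (Nat.zero_lt_of_lt j.2)
  have hx : 0 < tc p 0 := by linarith
  obtain ⟨a1, a2, _⟩ := hp
  obtain ⟨b1, b2, _⟩ := hq
  have e1 : ((i : ℕ) : ℝ) < (j : ℕ) + 1 := by
    by_contra hcon
    push Not at hcon
    nlinarith
  have e2 : ((j : ℕ) : ℝ) < (i : ℕ) + 1 := by
    by_contra hcon
    push Not at hcon
    nlinarith
  have e1' : (i : ℕ) < (j : ℕ) + 1 := by exact_mod_cast e1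
  have e2' : (j : ℕ) < (i : ℕ) + 1 := by exact_mod_cast e2
  exact Fin.ext (by omega)

/-! ## Covering -/

lemma exists_translation (x y z : ℝ) (h : x + y + z = 0) :
    ∃ a b c : ℤ, a + b + c = 0 ∧ (x - a) - (y - b) ≤ 1 ∧ (y - b) - (x - a) ≤ 1 ∧
      (x - a) - (z - c) ≤ 1 ∧ (z - c) - (x - a) ≤ 1 ∧
      (y - b) - (z - c) ≤ 1 ∧ (z - c) - (y - b) ≤ 1 := by
  have hx0 := Int.floor_le x
  have hx1 := Int.lt_floor_add_one x
  have hy0 := Int.floor_le y
  have hy1 := Int.lt_floor_add_one y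
  have hz0 := Int.floor_le z
  have hz1 := Int.lt_floor_add_one z
  generalize ⌊x⌋ = a at *
  generalize ⌊y⌋ = b at *
  generalize ⌊z⌋ = c at *
  have hs1 : a + b + c ≤ 0 := by
    have : ((a + b + c : ℤ) : ℝ) ≤ 0 := by push_cast; linarith
    exact_mod_cast this
  have hs2 : -3 < a + b + c := by
    have : (-3 : ℝ) < ((a + b + c : ℤ) : ℝ) := by push_cast; linarith
    exact_mod_cast this
  have hs : a + b + c = 0 ∨ a + b + c = -1 ∨ a + b + c = -2 := by omega
  rcases hs with hs | hs | hs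
  · refine ⟨a, b, c, hs, ?_, ?_, ?_, ?_, ?_, ?_⟩ <;> linarith
  · -- the fractional parts sum to 1: raise the largest one
    rcases le_total (x - a) (y - b) with h1 | h1
    · rcases le_total (y - b) (z - c) with h2 | h2
      · refine ⟨a, b, c + 1, by omega, ?_, ?_, ?_, ?_, ?_, ?_⟩ <;> push_cast <;> linarith
      · refine ⟨a, b + 1, c, by omega, ?_, ?_, ?_, ?_, ?_, ?_⟩ <;> push_cast <;> linarith
    · rcases le_total (x - a) (z - c) with h2 | h2
      · refine ⟨a, b, c + 1, by omega, ?_, ?_, ?_, ?_, ?_, ?_⟩ <;> push_cast <;> linarith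
      · refine ⟨a + 1, b, c, by omega, ?_, ?_, ?_, ?_, ?_, ?_⟩ <;> push_cast <;> linarith
  · -- the fractional parts sum to 2: keep the smallest one
    rcases le_total (x - a) (y - b) with h1 | h1
    · rcases le_total (x - a) (z - c) with h2 | h2
      · refine ⟨a, b + 1, c + 1, by omega, ?_, ?_, ?_, ?_, ?_, ?_⟩ <;> push_cast <;> linarith
      · refine ⟨a + 1, b + 1, c, by omega, ?_, ?_, ?_, ?_, ?_, ?_⟩ <;> push_cast <;> linarith
    · rcases le_total (y - b) (z - c) with h2 | h2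
      · refine ⟨a + 1, b, c + 1, by omega, ?_, ?_, ?_, ?_, ?_, ?_⟩ <;> push_cast <;> linarith
      · refine ⟨a + 1, b + 1, c, by omega, ?_, ?_, ?_, ?_, ?_, ?_⟩ <;> push_cast <;> linarith

lemma exists_sort (q : Fin 3 → ℝ) : ∃ σ : Equiv.Perm (Fin 3), q (σ 1) ≤ q (σ 0) ∧
    q (σ 2) ≤ q (σ 1) := by
  rcases le_total (q 0) (q 1) with h1 | h1 <;> rcases le_total (q 1) (q 2) with h2 | h2 <;>
    rcases le_total (q 0) (q 2) with h3 | h3
  · exact ⟨Equiv.swap 0 2, by simpa [Equiv.swap_apply_of_ne_of_ne] using h2,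
      by simpa [Equiv.swap_apply_of_ne_of_ne] using h1⟩
  · exact ⟨Equiv.swap 0 2, by simpa [Equiv.swap_apply_of_ne_of_ne] using h2,
      by simpa [Equiv.swap_apply_of_ne_of_ne] using h1⟩
  · -- q 0 ≤ q 2 ≤ q 1
    refine ⟨Equiv.swap 0 1 * Equiv.swap 1 2, ?_, ?_⟩
    · have e0 : (Equiv.swap 0 1 * Equiv.swap 1 2 : Equiv.Perm (Fin 3)) 0 = 1 := by decide
      have e1 : (Equiv.swap 0 1 * Equiv.swap 1 2 : Equiv.Perm (Fin 3)) 1 = 2 := by decide
      rw [e0, e1]; exact h2
    · have e2 : (Equiv.swap 0 1 * Equiv.swap 1 2 : Equiv.Perm (Fin 3)) 2 = 0 := by decide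
      have e1 : (Equiv.swap 0 1 * Equiv.swap 1 2 : Equiv.Perm (Fin 3)) 1 = 2 := by decide
      rw [e2, e1]; exact h3
  · -- q 2 ≤ q 0 ≤ q 1
    refine ⟨Equiv.swap 0 1, ?_, ?_⟩
    · have e0 : (Equiv.swap (0 : Fin 3) 1) 0 = 1 := by decide
      have e1 : (Equiv.swap (0 : Fin 3) 1) 1 = 0 := by decide
      rw [e0, e1]; exact h1
    · have e2 : (Equiv.swap (0 : Fin 3) 1) 2 = 2 := by decide
      have e1 : (Equiv.swap (0 : Fin 3) 1) 1 = 0 := by decide
      rw [e2, e1]; exact h3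
  · -- q 1 ≤ q 0 ≤ q 2
    refine ⟨Equiv.swap 0 2 * Equiv.swap 1 2, ?_, ?_⟩
    · have e0 : (Equiv.swap 0 2 * Equiv.swap 1 2 : Equiv.Perm (Fin 3)) 0 = 2 := by decide
      have e1 : (Equiv.swap 0 2 * Equiv.swap 1 2 : Equiv.Perm (Fin 3)) 1 = 0 := by decide
      rw [e0, e1]; exact h3
    · have e2 : (Equiv.swap 0 2 * Equiv.swap 1 2 : Equiv.Perm (Fin 3)) 2 = 1 := by decide
      have e1 : (Equiv.swap 0 2 * Equiv.swap 1 2 : Equiv.Perm (Fin 3)) 1 = 0 := by decide
      rw [e2, e1]; exact h1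
  · -- q 1 ≤ q 2 ≤ q 0
    refine ⟨Equiv.swap 1 2, ?_, ?_⟩
    · have e0 : (Equiv.swap (1 : Fin 3) 2) 0 = 0 := by decide
      have e1 : (Equiv.swap (1 : Fin 3) 2) 1 = 2 := by decide
      rw [e0, e1]; exact h3
    · have e2 : (Equiv.swap (1 : Fin 3) 2) 2 = 1 := by decide
      have e1 : (Equiv.swap (1 : Fin 3) 2) 1 = 2 := by decide
      rw [e2, e1]; exact h2
  · exact ⟨1, by simpa using h1, by simpa using h2⟩
  · exact ⟨1, by simpa using h1, by simpa using h2⟩

lemma exists_piece {t : ℕ} (ht : 0 < t) {p : Plane} (h1 : 0 ≤ tc p 1) (h0 : tc p 1 ≤ tc p 0)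
    (h2 : 2 * tc p 0 + tc p 1 ≤ 1) : ∃ j : Fin t, p ∈ piece t j := by
  have ht' : (0 : ℝ) < t := by exact_mod_cast ht
  rcases eq_or_lt_of_le (le_trans h1 h0) with hz | hpos
  · refine ⟨⟨0, ht⟩, ?_, ?_, h2⟩
    · rw [← hz]; simp; positivity
    · rw [← hz] at h0 ⊢
      have : tc p 1 = 0 := le_antisymm h0 h1
      rw [this]; simp
  · rcases eq_or_lt_of_le h0 with he | hlt
    · refine ⟨⟨t - 1, by omega⟩, ?_, ?_, h2⟩
      · have : ((t - 1 : ℕ) : ℝ) = t - 1 := by
          rw [Nat.cast_sub (by omega)]; simp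
        simp only [this]
        rw [he]; nlinarith
      · have : ((t - 1 : ℕ) : ℝ) = t - 1 := by
          rw [Nat.cast_sub (by omega)]; simp
        simp only [this]
        rw [he]; nlinarith
    · have hr0 : 0 ≤ (t : ℝ) * tc p 1 / tc p 0 := by positivity
      have hr1 : (t : ℝ) * tc p 1 / tc p 0 < t := by
        rw [div_lt_iff₀ hpos]; nlinarith
      have hf : ⌊(t : ℝ) * tc p 1 / tc p 0⌋₊ < t := by
        rw [Nat.floor_lt hr0]; exact hr1
      refine ⟨⟨_, hf⟩, ?_, ?_, h2⟩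
      · have := Nat.floor_le hr0
        rw [le_div_iff₀ hpos] at this
        exact this
      · have := (Nat.lt_floor_add_one ((t : ℝ) * tc p 1 / tc p 0)).le
        rw [div_le_iff₀ hpos] at this
        exact this

lemma exists_cell {t : ℕ} (ht : 0 < t) (p : Plane) : ∃ (a : Elt) (j : Fin t), a.f p ∈ piece t j := by
  obtain ⟨l0, l1, l2, hl, h01, h10, h02, h20, h12, h21⟩ :=
    exists_translation (tc p 0) (tc p 1) (tc p 2) (tc_sum p)
  let b : Elt := ⟨1, 1, ![-l0, -l1, -l2], by simp [Fin.sum_univ_three]; omega⟩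
  have hb : ∀ i, tc (b.f p) i = tc p i + ((![-l0, -l1, -l2] i : ℤ) : ℝ) := by
    intro i
    rw [b.tc_f]
    simp [b, sg_one]
  have hb0 : tc (b.f p) 0 = tc p 0 - l0 := by rw [hb]; simp; ring
  have hb1 : tc (b.f p) 1 = tc p 1 - l1 := by rw [hb]; simp; ring
  have hb2 : tc (b.f p) 2 = tc p 2 - l2 := by rw [hb]; simp; ring
  obtain ⟨σ, s1, s2⟩ := exists_sort (tc (b.f p))
  have hd : ∀ i j : Fin 3, tc (b.f p) i - tc (b.f p) j ≤ 1 := by
    intro i j
    fin_cases i <;> fin_cases j <;>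
      simp only [Fin.zero_eta, Fin.mk_one, Fin.reduceFinMk, hb0, hb1, hb2] <;> linarith
  have hs : tc (b.f p) (σ 0) + tc (b.f p) (σ 1) + tc (b.f p) (σ 2) = 0 := by
    have := tc_sum_perm (b.f p) σ
    rwa [Fin.sum_univ_three] at this
  have hd02 := hd (σ 0) (σ 2)
  rcases le_total 0 (tc (b.f p) (σ 1)) with hpos | hneg
  · let a : Elt := ⟨σ, 1, 0, by simp⟩
    have ha : ∀ i, tc ((a.mul b).f p) i = tc (b.f p) (σ i) := by
      intro i
      rw [Elt.mul_f, a.tc_f]
      simp [a, sg_one]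
    obtain ⟨j, hj⟩ := exists_piece (p := (a.mul b).f p) ht
      (by rw [ha]; exact hpos) (by rw [ha, ha]; exact s1) (by rw [ha, ha]; linarith)
    exact ⟨_, j, hj⟩
  · let a : Elt := ⟨σ * Equiv.swap 0 2, -1, 0, by simp⟩
    have hsg : sg (-1) = -1 := by simp [sg]
    have e0 : (Equiv.swap (0 : Fin 3) 2) 0 = 2 := by decide
    have e1 : (Equiv.swap (0 : Fin 3) 2) 1 = 1 := by decide
    have ha : ∀ i, tc ((a.mul b).f p) i = - tc (b.f p) (σ (Equiv.swap 0 2 i)) := by
      intro i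
      rw [Elt.mul_f, a.tc_f]
      simp [a, hsg]
    obtain ⟨j, hj⟩ := exists_piece (p := (a.mul b).f p) ht
      (by rw [ha, e1]; linarith) (by rw [ha, ha, e1, e0]; linarith)
      (by rw [ha, ha, e1, e0]; linarith)
    exact ⟨_, j, hj⟩

/-! ## Disks, diameters -/

/-- The vertex `P_s` on the outer edge of the triangle, `x₁ / x₀ = s / t`. -/
noncomputable def vtx (t s : ℕ) : Plane :=
  ofT ![t / (2 * t + s), s / (2 * t + s), - ((t + s) / (2 * t + s))]

lemma tc_vtx {t s : ℕ} (ht : 0 < t) :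
    tc (vtx t s) 0 = t / (2 * t + s) ∧ tc (vtx t s) 1 = s / (2 * t + s) ∧
      tc (vtx t s) 2 = - ((t + s) / (2 * t + s)) := by
  have h : ∀ i, tc (vtx t s) i =
      (![t / (2 * t + s), s / (2 * t + s), - ((t + s) / (2 * t + s))] : Fin 3 → ℝ) i := by
    intro i
    apply tc_ofT
    have : (0 : ℝ) < 2 * t + s := by positivity
    simp
    field_simp
    ring
  exact ⟨h 0, h 1, h 2⟩

lemma tc_zero (i : Fin 3) : tc 0 i = 0 := by
  fin_cases i <;> simp [tc]

lemma dist_zero_vtx {t s : ℕ} (ht : 0 < t) :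
    dist (0 : Plane) (vtx t s) ^ 2 = 4 * (t ^ 2 + t * s + s ^ 2) / (2 * t + s) ^ 2 := by
  obtain ⟨h0, h1, h2⟩ := tc_vtx (s := s) ht
  rw [dist_sq, Fin.sum_univ_three, tc_zero, tc_zero, tc_zero, h0, h1, h2]
  have : (0 : ℝ) < 2 * t + s := by positivity
  field_simp
  ring

/-- squares of the distances from the origin -/
noncomputable def dd (t s : ℕ) : ℝ := 4 * ((t : ℝ) ^ 2 + t * s + s ^ 2) / (2 * t + s) ^ 2

lemma dd_mono {t r s : ℕ} (ht : 0 < t) (h : r < s) : dd t r < dd t s := by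
  unfold dd
  have ht' : (0 : ℝ) < t := by exact_mod_cast ht
  have h' : (r : ℝ) < s := by exact_mod_cast h
  have hr : (0 : ℝ) ≤ r := by positivity
  rw [div_lt_div_iff₀ (by positivity) (by positivity)]
  have key : 4 * ((t : ℝ) ^ 2 + t * s + s ^ 2) * (2 * t + r) ^ 2 -
      4 * ((t : ℝ) ^ 2 + t * r + r ^ 2) * (2 * t + s) ^ 2 =
      12 * t ^ 2 * (s ^ 2 - r ^ 2) + 12 * (t * r * s) * (s - r) := by ring
  have h1 : 0 < 12 * (t : ℝ) ^ 2 * (s ^ 2 - r ^ 2) := by
    have : (r : ℝ) ^ 2 < s ^ 2 := by nlinarith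
    have : 0 < (s : ℝ) ^ 2 - r ^ 2 := by linarith
    positivity
  have h2 : 0 ≤ 12 * ((t : ℝ) * r * s) * (s - r) := by
    have : 0 ≤ (s : ℝ) - r := by linarith
    positivity
  linarith

lemma one_le_dd {t s : ℕ} (ht : 0 < t) : 1 ≤ dd t s := by
  unfold dd
  have ht' : (0 : ℝ) < t := by exact_mod_cast ht
  rw [le_div_iff₀ (by positivity)]
  nlinarith [sq_nonneg ((s : ℝ)), sq_nonneg (t : ℝ)]

lemma dist_vtx_vtx {t s : ℕ} (ht : 0 < t) :
    dist (vtx t s) (vtx t (s + 1)) ^ 2 ≤ 1 := by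
  obtain ⟨h0, h1, h2⟩ := tc_vtx (s := s) ht
  obtain ⟨g0, g1, g2⟩ := tc_vtx (s := s + 1) ht
  rw [dist_sq, Fin.sum_univ_three, h0, h1, h2, g0, g1, g2]
  have ht' : (1 : ℝ) ≤ t := by exact_mod_cast ht
  have hs' : (0 : ℝ) ≤ s := by positivity
  push_cast
  set u : ℝ := (s : ℝ) with hu
  set w : ℝ := (t : ℝ) with hw
  have e0 : w / (2 * w + u) - w / (2 * w + (u + 1)) = w / ((2 * w + u) * (2 * w + (u + 1))) := by
    field_simp; ring
  have e1 : u / (2 * w + u) - (u + 1) / (2 * w + (u + 1)) =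
      - (2 * w) / ((2 * w + u) * (2 * w + (u + 1))) := by
    field_simp; ring
  have e2 : -((w + u) / (2 * w + u)) - -((w + (u + 1)) / (2 * w + (u + 1))) =
      w / ((2 * w + u) * (2 * w + (u + 1))) := by
    field_simp; ring
  rw [e0, e1, e2]
  have hD : 4 * w ≤ (2 * w + u) * (2 * w + (u + 1)) := by nlinarith
  have hD0 : 0 < (2 * w + u) * (2 * w + (u + 1)) := by positivity
  have hq : w / ((2 * w + u) * (2 * w + (u + 1))) ≤ 1 / 4 := by
    rw [div_le_div_iff₀ hD0 (by norm_num)]; linarith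
  have hq0 : 0 ≤ w / ((2 * w + u) * (2 * w + (u + 1))) := by positivity
  have e3 : - (2 * w) / ((2 * w + u) * (2 * w + (u + 1))) =
      - (2 * (w / ((2 * w + u) * (2 * w + (u + 1))))) := by ring
  rw [e3]
  set q := w / ((2 * w + u) * (2 * w + (u + 1))) with hqdef
  nlinarith

lemma piece_subset_hull {t : ℕ} (j : Fin t) :
    piece t j ⊆ convexHull ℝ {(0 : Plane), vtx t j, vtx t (j + 1)} := by
  intro p hp
  have htn := Nat.zero_lt_of_lt j.2
  have ht : (0 : ℝ) < t := by exact_mod_cast htn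
  obtain ⟨h1, h2, h3⟩ := hp
  have hj0 : (0 : ℝ) ≤ (j : ℕ) := by positivity
  obtain ⟨a0, a1, a2⟩ := tc_vtx (s := (j : ℕ)) htn
  obtain ⟨b0, b1, b2⟩ := tc_vtx (s := (j : ℕ) + 1) htn
  push_cast at b0 b1 b2
  set J : ℝ := ((j : ℕ) : ℝ) with hJ
  set T : ℝ := (t : ℝ) with hT
  set x := tc p 0 with hx
  set y := tc p 1 with hy
  set C : ℝ := y - J * x / T with hC
  set B : ℝ := (J + 1) * x / T - y with hB
  have hC0 : 0 ≤ C := by
    rw [hC, sub_nonneg, div_le_iff₀ ht]; linarith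
  have hB0 : 0 ≤ B := by
    rw [hB, sub_nonneg, le_div_iff₀ ht]; linarith
  have hBC : T * (B + C) = x := by rw [hB, hC]; field_simp; ring
  have hBC' : J * (B + C) + C = y := by
    rw [hB, hC]; field_simp; ring
  set b : ℝ := (2 * T + J) * B with hb
  set c : ℝ := (2 * T + (J + 1)) * C with hc
  have hp : p = (1 - b - c) • (0 : Plane) + b • vtx t j + c • vtx t (j + 1) := by
    apply tc_inj
    have k0 : tc p 0 = tc ((1 - b - c) • (0 : Plane) + b • vtx t j + c • vtx t (j + 1)) 0 := by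
      rw [tc_add, tc_add, tc_smul, tc_smul, tc_smul, tc_zero, a0, b0, hb, hc, ← hx, ← hBC]
      have : (0 : ℝ) < 2 * T + J := by positivity
      have : (0 : ℝ) < 2 * T + (J + 1) := by positivity
      field_simp
      ring
    have k1 : tc p 1 = tc ((1 - b - c) • (0 : Plane) + b • vtx t j + c • vtx t (j + 1)) 1 := by
      rw [tc_add, tc_add, tc_smul, tc_smul, tc_smul, tc_zero, a1, b1, hb, hc, ← hy, ← hBC']
      have : (0 : ℝ) < 2 * T + J := by positivity
      have : (0 : ℝ) < 2 * T + (J + 1) := by positivity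
      field_simp
      ring
    have s1 := tc_sum p
    have s2 := tc_sum ((1 - b - c) • (0 : Plane) + b • vtx t j + c • vtx t (j + 1))
    intro i
    fin_cases i
    · exact k0
    · exact k1
    · change tc p 2 = tc ((1 - b - c) • (0 : Plane) + b • vtx t j + c • vtx t (j + 1)) 2
      linarith
  have ha0 : 0 ≤ 1 - b - c := by
    have : b + c = 2 * x + y := by
      rw [hb, hc, ← hBC, ← hBC']; ring
    linarith
  have hb0 : 0 ≤ b := by positivity
  have hc0 : 0 ≤ c := by positivity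
  rw [hp]
  have hconv := convex_convexHull ℝ ({(0 : Plane), vtx t j, vtx t (j + 1)} : Set Plane)
  have hm : ∀ z ∈ ({(0 : Plane), vtx t j, vtx t (j + 1)} : Set Plane),
      z ∈ convexHull ℝ ({(0 : Plane), vtx t j, vtx t (j + 1)} : Set Plane) :=
    fun z hz => subset_convexHull ℝ _ hz
  have := hconv.sum_mem (t := Finset.univ) (w := ![1 - b - c, b, c])
    (z := ![(0 : Plane), vtx t j, vtx t (j + 1)])
    (by intro i _; fin_cases i <;> simp <;> linarith)
    (by simp [Fin.sum_univ_three]; ring)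
    (by intro i _; fin_cases i <;> simp <;> apply hm <;> simp)
  simpa [Fin.sum_univ_three] using this

lemma isBounded_piece {t : ℕ} (j : Fin t) : Bornology.IsBounded (piece t j) := by
  refine Bornology.IsBounded.subset ?_ (piece_subset_hull j)
  rw [isBounded_convexHull]
  exact (Set.toFinite _).isBounded

lemma isCompact_piece {t : ℕ} (j : Fin t) : IsCompact (piece t j) :=
  Metric.isCompact_of_isClosed_isBounded (isClosed_piece t j) (isBounded_piece j)

lemma diam_piece_le {t : ℕ} (j : Fin t) : Metric.diam (piece t j) ^ 2 ≤ dd t (j + 1) := by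
  have htn := Nat.zero_lt_of_lt j.2
  have h1 : Metric.diam (piece t j) ≤ √(dd t (j + 1)) := by
    calc Metric.diam (piece t j)
        ≤ Metric.diam (convexHull ℝ {(0 : Plane), vtx t j, vtx t (j + 1)}) := by
          apply Metric.diam_mono (piece_subset_hull j)
          rw [isBounded_convexHull]
          exact (Set.toFinite _).isBounded
      _ = Metric.diam {(0 : Plane), vtx t j, vtx t (j + 1)} := convexHull_diam _
      _ ≤ √(dd t (j + 1)) := by
          rw [Metric.diam_triple]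
          have d1 : dist (0 : Plane) (vtx t j) ≤ √(dd t (j + 1)) := by
            apply Real.le_sqrt_of_sq_le
            rw [dist_zero_vtx htn]
            exact (dd_mono htn (Nat.lt_succ_self j)).le
          have d2 : dist (0 : Plane) (vtx t (j + 1)) ≤ √(dd t (j + 1)) := by
            apply Real.le_sqrt_of_sq_le
            rw [dist_zero_vtx htn]
            exact le_of_eq rfl
          have d3 : dist (vtx t j) (vtx t (j + 1)) ≤ √(dd t (j + 1)) := by
            apply Real.le_sqrt_of_sq_le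
            exact (dist_vtx_vtx htn).trans (one_le_dd htn)
          exact max_le (max_le d1 d2) d3
  have h0 : 0 ≤ dd t (j + 1) := le_trans zero_le_one (one_le_dd htn)
  calc Metric.diam (piece t j) ^ 2 ≤ (√(dd t (j + 1))) ^ 2 := by
        apply pow_le_pow_left₀ Metric.diam_nonneg h1
    _ = _ := Real.sq_sqrt h0

lemma vtx_mem_piece {t : ℕ} (j : Fin t) : vtx t (j + 1) ∈ piece t j := by
  have htn := Nat.zero_lt_of_lt j.2
  have ht : (0 : ℝ) < t := by exact_mod_cast htn
  obtain ⟨b0, b1, b2⟩ := tc_vtx (s := (j : ℕ) + 1) htn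
  push_cast at b0 b1 b2
  refine ⟨?_, ?_, ?_⟩
  · rw [b0, b1, mul_div_assoc', mul_div_assoc', div_le_div_iff_of_pos_right (by positivity)]
    nlinarith
  · rw [b0, b1, mul_div_assoc', mul_div_assoc', div_le_div_iff_of_pos_right (by positivity)]
    nlinarith
  · rw [b0, b1]
    have : (0 : ℝ) < 2 * t + ((j : ℕ) + 1) := by positivity
    rw [mul_div_assoc', ← add_div, div_le_one this]

lemma zero_mem_piece {t : ℕ} (j : Fin t) : (0 : Plane) ∈ piece t j := by
  refine ⟨?_, ?_, ?_⟩ <;> rw [tc_zero, tc_zero] <;> simp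

lemma le_diam_piece {t : ℕ} (j : Fin t) : dd t (j + 1) ≤ Metric.diam (piece t j) ^ 2 := by
  have htn := Nat.zero_lt_of_lt j.2
  have h := Metric.dist_le_diam_of_mem (isBounded_piece j) (zero_mem_piece j) (vtx_mem_piece j)
  have h2 := dist_zero_vtx (s := (j : ℕ) + 1) htn
  calc dd t (j + 1) = dist (0 : Plane) (vtx t (j + 1)) ^ 2 := by rw [h2]; rfl
    _ ≤ _ := pow_le_pow_left₀ dist_nonneg h 2

lemma diam_piece_inj {t : ℕ} {i j : Fin t}
    (h : Metric.diam (piece t i) = Metric.diam (piece t j)) : i = j := by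
  have htn := Nat.zero_lt_of_lt j.2
  have e1 : Metric.diam (piece t i) ^ 2 = dd t (i + 1) := le_antisymm (diam_piece_le i) (le_diam_piece i)
  have e2 : Metric.diam (piece t j) ^ 2 = dd t (j + 1) := le_antisymm (diam_piece_le j) (le_diam_piece j)
  have e : dd t (i + 1) = dd t (j + 1) := by rw [← e1, ← e2, h]
  rcases lt_trichotomy (i : ℕ) (j : ℕ) with hlt | heq | hlt
  · have := dd_mono htn (Nat.succ_lt_succ hlt)
    simp only [Nat.succ_eq_add_one] at this
    linarith
  · exact Fin.ext heq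
  · have := dd_mono htn (Nat.succ_lt_succ hlt)
    simp only [Nat.succ_eq_add_one] at this
    linarith

lemma convex_piece {t : ℕ} (j : Fin t) : Convex ℝ (piece t j) := by
  intro p hp q hq a b ha hb hab
  obtain ⟨p1, p2, p3⟩ := hp
  obtain ⟨q1, q2, q3⟩ := hq
  refine ⟨?_, ?_, ?_⟩ <;> rw [tc_add, tc_smul, tc_smul, tc_add, tc_smul, tc_smul]
  · nlinarith [mul_le_mul_of_nonneg_left p1 ha, mul_le_mul_of_nonneg_left q1 hb]
  · nlinarith [mul_le_mul_of_nonneg_left p2 ha, mul_le_mul_of_nonneg_left q2 hb]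
  · nlinarith [mul_le_mul_of_nonneg_left p3 ha, mul_le_mul_of_nonneg_left q3 hb]

/-- A point in the interior of a piece. -/
lemma openPiece_nonempty {t : ℕ} (j : Fin t) : (openPiece t j).Nonempty := by
  have htn := Nat.zero_lt_of_lt j.2
  have ht : (0 : ℝ) < t := by exact_mod_cast htn
  have hj : ((j : ℕ) : ℝ) + 1 ≤ t := by exact_mod_cast j.2
  have hj0 : (0 : ℝ) ≤ (j : ℕ) := by positivity
  refine ⟨ofT ![1 / 4, (j + 1 / 2) / (4 * t), - (1 / 4 + (j + 1 / 2) / (4 * t))], ?_, ?_, ?_⟩ <;>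
    rw [tc_ofT _ (by simp), tc_ofT _ (by simp)] <;> simp
  · field_simp; linarith
  · field_simp; linarith
  · field_simp; linarith

lemma isClosedDisk_piece {t : ℕ} (j : Fin t) : IsClosedDisk (piece t j) := by
  obtain ⟨e, -, h2, -⟩ := exists_homeomorph_image_interior_closure_frontier_eq_unitBall
    (convex_piece j) (by rw [interior_piece]; exact openPiece_nonempty j) (isBounded_piece j)
  rw [(isClosed_piece t j).closure_eq] at h2
  exact ⟨(e.image (piece t j)).trans (Homeomorph.setCongr h2)⟩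

lemma IsClosedDisk.image {C : Set Plane} (h : IsClosedDisk C) (g : Plane ≃ᵢ Plane) :
    IsClosedDisk (g '' C) := by
  obtain ⟨e⟩ := h
  exact ⟨(g.toHomeomorph.image C).symm.trans e⟩

/-! ## The prototile -/

/-- the translation placing the `j`-th piece into the open chamber -/
def tau {t : ℕ} (j : Fin t) : Elt where
  σ := 1
  ε := 1
  l := ![(j : ℕ) + 2, 1, - ((j : ℕ) + 3)]
  hl := by simp [Fin.sum_univ_three]; ring

/-- elements of the point group of order `12` -/
def pt (s : Equiv.Perm (Fin 3) × ℤˣ) : Elt where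
  σ := s.1
  ε := s.2
  l := 0
  hl := by simp

/-- one of the `12 t` components of the prototile -/
noncomputable def comp {t : ℕ} (s : Equiv.Perm (Fin 3) × ℤˣ) (j : Fin t) : Set Plane :=
  (pt s).act '' ((tau j).act '' piece t j)

/-- the prototile -/
noncomputable def proto (t : ℕ) : Set Plane := ⋃ (x : (Equiv.Perm (Fin 3) × ℤˣ) × Fin t), comp x.1 x.2

/-- the tiling -/
def tilingOf (t : ℕ) : Set (Set Plane) := {A | ∃ a : Elt, A = a.act '' proto t}

lemma tc_tau {t : ℕ} (j : Fin t) (p : Plane) :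
    tc ((tau j).f p) 0 = tc p 0 + (j + 2) ∧ tc ((tau j).f p) 1 = tc p 1 + 1 := by
  constructor <;> rw [Elt.tc_f] <;> simp [tau, sg_one]

lemma comp_disjoint {t : ℕ} {s s' : Equiv.Perm (Fin 3) × ℤˣ} {i j : Fin t} {p : Plane}
    (h1 : p ∈ comp s i) (h2 : p ∈ comp s' j) : s = s' ∧ i = j := by
  obtain ⟨_, ⟨y, hy, rfl⟩, hyp⟩ := h1
  obtain ⟨_, ⟨z, hz, rfl⟩, hzp⟩ := h2
  simp only [Elt.act_apply] at hyp hzp
  obtain ⟨y1, y0⟩ := piece_nonneg hy
  obtain ⟨z1, z0⟩ := piece_nonneg hz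
  have y2 := hy.2.2
  have z2 := hz.2.2
  obtain ⟨ty0, ty1⟩ := tc_tau i y
  obtain ⟨tz0, tz1⟩ := tc_tau j z
  have i0 : (0 : ℝ) ≤ (i : ℕ) := by positivity
  have j0 : (0 : ℝ) ≤ (j : ℕ) := by positivity
  have hyz : ∀ k, sg s.2 * tc ((tau i).f y) (s.1 k) = sg s'.2 * tc ((tau j).f z) (s'.1 k) := by
    intro k
    have e1 : tc p k = sg s.2 * tc ((tau i).f y) (s.1 k) := by
      rw [← hyp, Elt.tc_f]; simp [pt]
    have e2 : tc p k = sg s'.2 * tc ((tau j).f z) (s'.1 k) := by
      rw [← hzp, Elt.tc_f]; simp [pt]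
    rw [← e1, e2]
  have hch := chamber_unique (y := tc ((tau i).f y)) (z := tc ((tau j).f z)) (tc_sum _) (tc_sum _)
    (by rw [ty1]; linarith) (by rw [ty0, ty1]; linarith)
    (by rw [tz1]; linarith) (by rw [tz0, tz1]; linarith) (s.1 * s'.1⁻¹) (s.2 * s'.2) (by
      intro k
      have h := hyz (s'.1⁻¹ k)
      simp only [Equiv.Perm.coe_inv, Equiv.apply_symm_apply] at h
      simp only [Equiv.Perm.mul_apply, Equiv.Perm.coe_inv, sg_mul]
      have hs := sg_sq s'.2
      calc tc ((tau j).f z) k = (sg s'.2 * sg s'.2) * tc ((tau j).f z) k := by rw [hs, one_mul]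
        _ = sg s'.2 * (sg s'.2 * tc ((tau j).f z) k) := by ring
        _ = sg s'.2 * (sg s.2 * tc ((tau i).f y) (s.1 (Equiv.symm s'.1 k))) := by rw [h]
        _ = _ := by ring)
  obtain ⟨hσ, hε⟩ := hch
  have hs1 : s.1 = s'.1 := mul_inv_eq_one.1 hσ
  have hs2 : s.2 = s'.2 := by
    have : s.2 * s'.2 * s'.2 = s'.2 := by rw [hε, one_mul]
    rwa [mul_assoc, Int.units_mul_self, mul_one] at this
  have hs : s = s' := Prod.ext hs1 hs2
  refine ⟨hs, ?_⟩
  subst hs
  have h0 : tc ((tau i).f y) 0 = tc ((tau j).f z) 0 := by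
    have h := hyz (s.1⁻¹ 0)
    simp only [Equiv.Perm.coe_inv, Equiv.apply_symm_apply] at h
    have hs := sg_sq s.2
    have h' : (sg s.2 * sg s.2) * tc ((tau i).f y) 0 = (sg s.2 * sg s.2) * tc ((tau j).f z) 0 := by
      rw [mul_assoc, mul_assoc, h]
    rwa [hs, one_mul, one_mul] at h'
  rw [ty0, tz0] at h0
  have e1 : ((i : ℕ) : ℝ) < (j : ℕ) + 1 := by linarith
  have e2 : ((j : ℕ) : ℝ) < (i : ℕ) + 1 := by linarith
  have e1' : (i : ℕ) < (j : ℕ) + 1 := by exact_mod_cast e1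
  have e2' : (j : ℕ) < (i : ℕ) + 1 := by exact_mod_cast e2
  exact Fin.ext (by omega)

lemma comp_nonempty {t : ℕ} (s : Equiv.Perm (Fin 3) × ℤˣ) (j : Fin t) : (comp s j).Nonempty := by
  unfold comp
  exact Set.Nonempty.image _ (Set.Nonempty.image _ ⟨0, zero_mem_piece j⟩)

lemma isCompact_comp {t : ℕ} (s : Equiv.Perm (Fin 3) × ℤˣ) (j : Fin t) : IsCompact (comp s j) := by
  unfold comp
  exact ((isCompact_piece j).image (tau j).act.continuous).image (pt s).act.continuous

lemma isCompact_proto (t : ℕ) : IsCompact (proto t) :=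
  isCompact_iUnion fun x => isCompact_comp x.1 x.2

lemma image_comp {t : ℕ} (a : Elt) (s : Equiv.Perm (Fin 3) × ℤˣ) (j : Fin t) :
    a.act '' comp s j = ((a.mul (pt s)).mul (tau j)).act '' piece t j := by
  rw [Elt.image_mul, Elt.image_mul, comp]

lemma image_proto (a : Elt) (t : ℕ) : a.act '' proto t =
    ⋃ (x : (Equiv.Perm (Fin 3) × ℤˣ) × Fin t), a.act '' comp x.1 x.2 := by
  rw [proto, image_iUnion]

lemma diam_image_piece {t : ℕ} (a : Elt) (j : Fin t) :
    Metric.diam (a.act '' piece t j) = Metric.diam (piece t j) :=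
  a.act.isometry.diam_image _

/-- invariance of the tiling under the group -/
lemma act_mem_symmetries (t : ℕ) (a : Elt) : a.act ∈ symmetries (tilingOf t) := by
  change (fun A => a.act '' A) '' tilingOf t = tilingOf t
  apply Subset.antisymm
  · rintro _ ⟨_, ⟨b, rfl⟩, rfl⟩
    exact ⟨a.mul b, (Elt.image_mul a b _).symm⟩
  · rintro _ ⟨b, rfl⟩
    refine ⟨a.inv.act '' (b.act '' proto t), ⟨a.inv.mul b, (Elt.image_mul _ _ _).symm⟩, ?_⟩
    exact Elt.image_inv' a _

lemma isIsohedral_tilingOf (t : ℕ) : IsIsohedral (tilingOf t) := by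
  rintro _ ⟨a, rfl⟩ _ ⟨b, rfl⟩
  refine ⟨(b.mul a.inv).act, act_mem_symmetries t _, ?_⟩
  rw [Elt.image_mul, Elt.image_inv]

lemma cover_tilingOf {t : ℕ} (ht : 0 < t) : ⋃₀ tilingOf t = univ := by
  apply eq_univ_of_forall
  intro p
  obtain ⟨a, j, hj⟩ := exists_cell ht p
  refine ⟨(a.inv.mul (tau j).inv).act '' proto t, ⟨_, rfl⟩, ?_⟩
  rw [Elt.image_mul]
  refine ⟨a.act p, ?_, Elt.inv_f a p⟩
  refine ⟨(tau j).act (a.act p), ?_, Elt.inv_f (tau j) _⟩
  refine mem_iUnion.2 ⟨((1, 1), j), ?_⟩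
  refine ⟨(tau j).act (a.act p), ⟨a.act p, hj, rfl⟩, ?_⟩
  apply tc_inj
  intro i
  rw [Elt.act_apply, Elt.tc_f]
  simp [pt, sg_one]

/-- points not on the boundary of any cell are dense -/
lemma dense_regular (t : ℕ) :
    Dense (⋂ x : Elt × Fin t, (frontier (x.1.act '' piece t x.2))ᶜ) := by
  apply dense_iInter_of_isOpen
  · intro x
    exact isClosed_frontier.isOpen_compl
  · intro x
    rw [← interior_eq_empty_iff_dense_compl]
    apply interior_frontier
    exact ((isCompact_piece x.2).image x.1.act.continuous).isClosed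

lemma interior_image (a : Elt) (A : Set Plane) : interior (a.act '' A) = a.act '' interior A :=
  (a.act.toHomeomorph.image_interior A).symm

lemma pt_image_comp {t : ℕ} (u v : Equiv.Perm (Fin 3) × ℤˣ) (k : Fin t) :
    (pt u).act '' comp v k = comp (v.1 * u.1, u.2 * v.2) k := by
  have hmul : ∀ x, ((pt u).mul (pt v)).f x = (pt (v.1 * u.1, u.2 * v.2)).f x := by
    intro x
    apply tc_inj
    intro k
    rw [Elt.tc_f, Elt.tc_f]
    simp [pt, Elt.mul]
  rw [comp, comp, ← Elt.image_mul]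
  exact image_congr (fun x _ => hmul x)

/-- the prototile is invariant under the point group -/
lemma pt_image_proto (t : ℕ) (u : Equiv.Perm (Fin 3) × ℤˣ) : (pt u).act '' proto t = proto t := by
  rw [image_proto]
  apply Subset.antisymm
  · apply iUnion_subset
    rintro ⟨v, k⟩
    simp only
    rw [pt_image_comp]
    exact subset_iUnion_of_subset ((v.1 * u.1, u.2 * v.2), k) Subset.rfl
  · rw [proto]
    apply iUnion_subset
    rintro ⟨v, k⟩
    simp only
    refine subset_iUnion_of_subset ((v.1 * u.1⁻¹, u.2 * v.2), k) ?_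
    simp only
    rw [pt_image_comp]
    simp [← mul_assoc]

lemma disjoint_tilingOf (t : ℕ) (a b : Elt) (hne : a.act '' proto t ≠ b.act '' proto t) :
    Disjoint (interior (a.act '' proto t)) (interior (b.act '' proto t)) := by
  rw [Set.disjoint_iff_inter_eq_empty, ← Set.not_nonempty_iff_eq_empty]
  intro hn
  apply hne
  obtain ⟨p, hpU, hpR⟩ := (dense_regular t).inter_open_nonempty _
    (isOpen_interior.inter isOpen_interior) hn
  have h1 := interior_subset hpU.1
  have h2 := interior_subset hpU.2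
  rw [image_proto] at h1 h2
  obtain ⟨⟨s, i⟩, h1⟩ := mem_iUnion.1 h1
  obtain ⟨⟨s', j⟩, h2⟩ := mem_iUnion.1 h2
  simp only at h1 h2
  rw [image_comp] at h1 h2
  -- `p` is in the interior of both cells
  have key : ∀ (c : Elt) (k : Fin t), p ∈ c.act '' piece t k → p ∈ c.act '' openPiece t k := by
    intro c k hp
    rw [← interior_piece, ← interior_image]
    have hnf := mem_iInter.1 hpR (c, k)
    rw [mem_compl_iff, frontier] at hnf
    by_contra hcon
    exact hnf ⟨subset_closure hp, hcon⟩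
  obtain ⟨y, hy, hyp⟩ := key _ _ h1
  obtain ⟨z, hz, hzp⟩ := key _ _ h2
  rw [Elt.act_apply] at hyp hzp
  have hzy : (((b.mul (pt s')).mul (tau j)).inv.mul ((a.mul (pt s)).mul (tau i))).f y = z := by
    rw [Elt.mul_f, hyp, ← hzp, Elt.inv_f]
  obtain ⟨hid, hij⟩ := cell_unique hy (by rw [hzy]; exact hz)
  subst hij
  -- hence the two group elements coincide
  have hab : ∀ x, (a.mul (pt s)).f x = (b.mul (pt s')).f x := by
    intro x
    have h := hid ((tau i).inv.f x)
    rw [Elt.mul_f] at h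
    have h' : ((b.mul (pt s')).mul (tau i)).f (((b.mul (pt s')).mul (tau i)).inv.f
        (((a.mul (pt s)).mul (tau i)).f ((tau i).inv.f x))) =
        ((b.mul (pt s')).mul (tau i)).f ((tau i).inv.f x) := by rw [h]
    rw [Elt.f_inv] at h'
    rwa [Elt.mul_f (a.mul (pt s)), Elt.mul_f (b.mul (pt s')), Elt.f_inv] at h'
  calc a.act '' proto t = a.act '' ((pt s).act '' proto t) := by rw [pt_image_proto]
    _ = (a.mul (pt s)).act '' proto t := (Elt.image_mul _ _ _).symm
    _ = (b.mul (pt s')).act '' proto t := image_congr (fun x _ => hab x)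
    _ = b.act '' ((pt s').act '' proto t) := Elt.image_mul _ _ _
    _ = b.act '' proto t := by rw [pt_image_proto]

lemma isTiling_tilingOf {t : ℕ} (ht : 0 < t) : IsTiling (tilingOf t) where
  countable := by
    have : tilingOf t = range (fun a : Elt => a.act '' proto t) := by
      ext A
      constructor
      · rintro ⟨a, rfl⟩; exact ⟨a, rfl⟩
      · rintro ⟨a, rfl⟩; exact ⟨a, rfl⟩
    rw [this]
    exact countable_range _
  closed := by
    rintro _ ⟨a, rfl⟩
    exact ((isCompact_proto t).image a.act.continuous).isClosed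
  cover := cover_tilingOf ht
  disjoint := by
    rintro _ ⟨a, rfl⟩ _ ⟨b, rfl⟩ hne
    exact disjoint_tilingOf t a b hne

/-! ## The components and their classes -/

/-- the components of the tile `a.act '' proto t` -/
def comps (t : ℕ) (a : Elt) : Set (Set Plane) :=
  range (fun x : (Equiv.Perm (Fin 3) × ℤˣ) × Fin t => a.act '' comp x.1 x.2)

lemma image_comp_disjoint {t : ℕ} (a : Elt) {s s' : Equiv.Perm (Fin 3) × ℤˣ} {i j : Fin t}
    (h : ¬ Disjoint (a.act '' comp s i) (a.act '' comp s' j)) : s = s' ∧ i = j := by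
  rw [Set.not_disjoint_iff] at h
  obtain ⟨_, ⟨x, hx, rfl⟩, ⟨y, hy, hxy⟩⟩ := h
  have : y = x := a.act.injective hxy
  subst this
  exact comp_disjoint hx hy

lemma image_comp_injective (t : ℕ) (a : Elt) : Function.Injective
    (fun x : (Equiv.Perm (Fin 3) × ℤˣ) × Fin t => a.act '' comp x.1 x.2) := by
  rintro ⟨s, i⟩ ⟨s', j⟩ h
  simp only at h
  have : s = s' ∧ i = j := by
    apply image_comp_disjoint a
    rw [← h, disjoint_self]
    exact ((comp_nonempty s i).image _).ne_empty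
  rw [this.1, this.2]

lemma isComponents_comps (t : ℕ) (a : Elt) :
    IsComponents (comps t a) (a.act '' proto t) (12 * t) where
  finite := finite_range _
  card := by
    rw [comps, ← image_univ, ncard_image_of_injective _ (image_comp_injective t a), ncard_univ,
      Nat.card_prod, Nat.card_prod, Nat.card_perm, Nat.card_fin, Nat.card_fin,
      Nat.card_eq_fintype_card, Fintype.card_units_int]
    norm_num [Nat.factorial]
  disk := by
    rintro _ ⟨⟨s, i⟩, rfl⟩
    simp only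
    rw [image_comp]
    exact (isClosedDisk_piece i).image _
  disjoint := by
    rintro _ ⟨⟨s, i⟩, rfl⟩ _ ⟨⟨s', j⟩, rfl⟩ hne
    simp only at hne ⊢
    by_contra hcon
    obtain ⟨h1, h2⟩ := image_comp_disjoint a hcon
    rw [h1, h2] at hne
    exact hne rfl
  union := by
    rw [comps, sUnion_range, image_proto]

lemma image_comp_diam {t : ℕ} {a : Elt} {s s' : Equiv.Perm (Fin 3) × ℤˣ} {i j : Fin t}
    {g : Plane ≃ᵢ Plane} (h : g '' (a.act '' comp s i) = a.act '' comp s' j) : i = j := by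
  apply diam_piece_inj
  have h1 : Metric.diam (a.act '' comp s i) = Metric.diam (piece t i) := by
    rw [image_comp, diam_image_piece]
  have h2 : Metric.diam (a.act '' comp s' j) = Metric.diam (piece t j) := by
    rw [image_comp, diam_image_piece]
  rw [← h1, ← h2, ← h]
  exact (g.isometry.diam_image _).symm

lemma componentClass_comp {t : ℕ} (a : Elt) (s : Equiv.Perm (Fin 3) × ℤˣ) (j : Fin t) :
    componentClass (tilingOf t) (comps t a) (a.act '' proto t) (a.act '' comp s j) =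
      {D | ∃ s' : Equiv.Perm (Fin 3) × ℤˣ, D = a.act '' comp s' j} := by
  ext D
  constructor
  · rintro ⟨⟨⟨s', k⟩, rfl⟩, g, -, hg⟩
    have := image_comp_diam hg
    subst this
    exact ⟨s', rfl⟩
  · rintro ⟨s', rfl⟩
    refine ⟨⟨(s', j), rfl⟩, ((a.mul (pt (s.1⁻¹ * s'.1, s'.2 * s.2))).mul a.inv).act,
      ⟨act_mem_symmetries t _, ?_⟩, ?_⟩
    · rw [Elt.image_mul, Elt.image_inv, Elt.image_mul, pt_image_proto]
    · rw [Elt.image_mul, Elt.image_inv, Elt.image_mul, pt_image_comp]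
      simp only
      rw [mul_inv_cancel_left, mul_assoc, Int.units_mul_self, mul_one]

lemma ncard_classes (t : ℕ) (a : Elt) :
    {K | ∃ C ∈ comps t a, K = componentClass (tilingOf t) (comps t a) (a.act '' proto t) C}.ncard
      = t := by
  have e : {K | ∃ C ∈ comps t a,
      K = componentClass (tilingOf t) (comps t a) (a.act '' proto t) C} =
      range (fun j : Fin t => {D | ∃ s' : Equiv.Perm (Fin 3) × ℤˣ, D = a.act '' comp s' j}) := by
    ext K
    constructor
    · rintro ⟨_, ⟨⟨s, j⟩, rfl⟩, rfl⟩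
      exact ⟨j, (componentClass_comp a s j).symm⟩
    · rintro ⟨j, rfl⟩
      exact ⟨_, ⟨((1, 1), j), rfl⟩, (componentClass_comp a (1, 1) j).symm⟩
  have hinj : Function.Injective
      (fun j : Fin t => {D | ∃ s' : Equiv.Perm (Fin 3) × ℤˣ, D = a.act '' comp s' j}) := by
    intro i j h
    simp only at h
    have h1 : a.act '' comp (1, 1) i ∈
        {D | ∃ s' : Equiv.Perm (Fin 3) × ℤˣ, D = a.act '' comp s' i} := ⟨(1, 1), rfl⟩
    rw [h] at h1
    obtain ⟨s', hs'⟩ := h1
    have := image_comp_injective t a (a₁ := ((1, 1), i)) (a₂ := (s', j)) hs'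
    simp only [Prod.mk.injEq] at this
    exact this.2
  rw [e, ← image_univ, ncard_image_of_injective _ hinj, ncard_univ, Nat.card_fin]

/-- For every positive `t` there is a `t`-class `12 t`-component tiling. -/
theorem exists_tiling {t : ℕ} (ht : 0 < t) :
    ∃ 𝒯 : Set (Set Plane), IsClassComponentTiling t (12 * t) 𝒯 := by
  refine ⟨tilingOf t, isTiling_tilingOf ht, isIsohedral_tilingOf t, ?_⟩
  rintro _ ⟨a, rfl⟩
  exact ⟨comps t a, isComponents_comps t a, ncard_classes t a⟩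

end Pool.Agent.Lib.MP_2d2d9d_co
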